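import Mathlib
import Pool.Agent.N969.P15.Defs

/-!
# Twists of the level 17 curve `y² = x (x + 1) (x - 16)` by `-n`, `n ≡ 3 mod 4` squarefree,
# `17` inert in `ℚ(√-n)`: definitions and statements (project P17)

The definite side counts vectors of the two ternary lattices attached to the maximal orders of the
quaternion algebra ramified at `17` and `∞`, the indefinite side consists of binary forms of
discriminant `4` and level `17`.
-/

set_option autoImplicit false

namespace Pool.Agent.N972.P17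

open Finset
open Pool.Agent.Z700 (hh fac)
open Pool.Agent.N969.P15 (V3 tw ep2 Qc psp un)

noncomputable section

/-! ### the lattices -/

/-- the Gram matrix of the first lattice (two rotations) -/
def G1 : Matrix (Fin 3) (Fin 3) ℤ := !![7, -3, -2; -3, 11, -4; -2, -4, 20]

/-- the Gram matrix of the second lattice (six rotations) -/
def G2 : Matrix (Fin 3) (Fin 3) ℤ := !![3, -1, -1; -1, 23, -11; -1, -11, 23]

/-- the inner product of the first lattice -/
def ip1 (v w : V3) : ℤ :=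
  7 * (v 0 * w 0) + 11 * (v 1 * w 1) + 20 * (v 2 * w 2) - 3 * (v 0 * w 1 + v 1 * w 0) -
    2 * (v 0 * w 2 + v 2 * w 0) - 4 * (v 1 * w 2 + v 2 * w 1)

/-- the inner product of the second lattice -/
def ip2 (v w : V3) : ℤ :=
  3 * (v 0 * w 0) + 23 * (v 1 * w 1) + 23 * (v 2 * w 2) - (v 0 * w 1 + v 1 * w 0) -
    (v 0 * w 2 + v 2 * w 0) - 11 * (v 1 * w 2 + v 2 * w 1)

/-- the vectors of norm `n` in the first lattice -/
def vec1 (n : ℤ) : Finset V3 :=
  (Fintype.piFinset fun _ => Icc (-n) n).filter fun v => ip1 v v = n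

/-- the vectors of norm `n` in the second lattice -/
def vec2 (n : ℤ) : Finset V3 :=
  (Fintype.piFinset fun _ => Icc (-n) n).filter fun v => ip2 v v = n

/-- the Eisenstein coefficient (`6` times the class number) -/
def rr (n : ℤ) : ℤ := 3 * (vec1 n).card + (vec2 n).card

/-- the cusp form coefficient -/
def cc (n : ℤ) : ℤ := (vec1 n).card - (vec2 n).card

/-- pairs of vectors of the first lattice with given Gram matrix -/
def cp1 (n1 b n2 : ℤ) : ℕ := ((vec1 n1 ×ˢ vec1 n2).filter fun q => ip1 q.1 q.2 = b).card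

/-- pairs of vectors of the second lattice with given Gram matrix -/
def cp2 (n1 b n2 : ℤ) : ℕ := ((vec2 n1 ×ˢ vec2 n2).filter fun q => ip2 q.1 q.2 = b).card

/-- the number of all pairs with weights `3` and `1` -/
def SS (n1 n2 : ℤ) : ℤ :=
  3 * ((vec1 n1).card * (vec1 n2).card) + (vec2 n1).card * (vec2 n2).card

/-- the local densities -/
def loc (n1 D : ℕ) : ℤ :=
  if Odd (D.factorization 17) then
    tw n1 D * ∏ l ∈ (D.primeFactors.erase 2).erase 17, fac n1 D l
  else 0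

/-- even positive definite symmetric matrices of determinant `34` -/
def PosF (M : Matrix (Fin 3) (Fin 3) ℤ) : Prop :=
  M.transpose = M ∧ 0 < M 0 0 ∧ 0 < M 0 0 * M 1 1 - M 0 1 ^ 2 ∧ M.det = 34 ∧
    (2 : ℤ) ∣ M 0 0 ∧ (2 : ℤ) ∣ M 1 1 ∧ (2 : ℤ) ∣ M 2 2

/-- TORS: the mass formula for the two lattices -/
def S_TORS : Prop := ∀ M : Matrix (Fin 3) (Fin 3) ℤ, PosF M →
  3 * Nat.card {A : Matrix (Fin 3) (Fin 3) ℤ // A.transpose * G1 * A = M.adjugate ∧ A.det = 1} +
    Nat.card {A : Matrix (Fin 3) (Fin 3) ℤ // A.transpose * G2 * A = M.adjugate ∧ A.det = 1} = 6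

/-- PC: the weighted number of pairs of vectors with given Gram matrix -/
def S_PC : Prop := ∀ (n1 n2 : ℕ) (b : ℤ) (D : ℕ), Squarefree n1 → n1 % 4 = 3 → ¬ 17 ∣ n1 →
  0 < D → (D : ℤ) = n1 * n2 - b ^ 2 →
  (3 * cp1 n1 b n2 + cp2 n1 b n2 : ℤ) = 6 * loc n1 D

/-! ### the classes -/

/-- the class of the main theorem (`17` is inert in `ℚ(√-n)`) -/
def Cm (n : ℕ) : Prop := Squarefree n ∧ n % 4 = 3 ∧ jacobiSym n 17 = -1

/-- the auxiliary class of real quadratic discriminants -/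
def Cp (m : ℕ) : Prop := Squarefree m ∧ m % 4 = 1 ∧ jacobiSym m 17 = 1

/-! ### Hecke relations -/

/-- HE2: the Hecke relations at `2` -/
def S_HE2 : Prop := ∀ n : ℕ, n % 4 = 3 → ¬ 17 ∣ n →
  rr (4 * n) = (3 - ep2 n) * rr n ∧ cc (4 * n) = (-1 - ep2 n) * cc n

/-- HE3: the Hecke relations at `3` -/
def S_HE3 : Prop := ∀ n : ℕ, n % 4 = 3 → ¬ 17 ∣ n → ¬ 3 ∣ n →
  rr (9 * n) = (4 - jacobiSym (-(n : ℤ)) 3) * rr n ∧ cc (9 * n) = - jacobiSym (-(n : ℤ)) 3 * cc n

/-! ### divisibility and parity -/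

/-- U1: the sum over the factorizations of a discriminant of the class `Cp` -/
def S_U1 : Prop := ∀ D : ℕ, Cp D → 1 < D →
  (2 : ℤ) ^ (D.primeFactors.card + 1) ∣
    ∑ d ∈ D.divisors.filter (fun d => d % 4 = 3), SS (d : ℕ) (D / d : ℕ)

/-- U3: the sum over the factorizations with the common factor `3` -/
def S_U3 : Prop := ∀ D : ℕ, Cp D → 1 < D → ¬ 3 ∣ D →
  (2 : ℤ) ^ (D.primeFactors.card + 2) ∣
    ∑ d ∈ D.divisors.filter (fun d => d % 4 = 1), SS (3 * d : ℕ) (3 * (D / d) : ℕ) -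
    ∑ d ∈ D.divisors.filter (fun d => d % 4 = 3), rr (d : ℕ) * rr (D / d : ℕ)

/-- R: the parity of the class number -/
def S_R : Prop := ∀ n : ℕ, Cm n → 3 < n →
  ∃ g : ℤ, rr n = 3 * (2 ^ n.primeFactors.card * g) ∧ (Odd g ↔ Qc n)

/-- the complement of a divisor if `p` divides it -/
def sw (n p b : ℕ) : ℕ := if p ∣ b then n / b else b

/-- the elementary form of minimal 2-Selmer group for the twist by `-n`: the system
`(L + A) x + A y = 0`, `N x + L y = 0` over `F_2` has only the trivial solution;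
`b` and `c` are the products of the primes `p` with `x_p = 1` and `y_p = 1` -/
def Sc (n : ℕ) : Prop := ∀ b c : ℕ, b ∣ n → c ∣ n →
  (∀ p ∈ n.primeFactors,
    jacobiSym (sw n p b : ℕ) p * (if p ∣ b ↔ p ∣ c then 1 else jacobiSym (-1) p) = 1) →
  (∀ p ∈ n.primeFactors,
    jacobiSym (sw n p c : ℕ) p * (if p ∣ b then jacobiSym 17 p else 1) = 1) →
  b = 1 ∧ c = 1

/-- PAR: the parity of the cusp form coefficient -/
def S_PAR : Prop := ∀ n : ℕ, Cm n →
  ∃ y : ℤ, cc n = 2 ^ n.primeFactors.card * y ∧ (Odd y ↔ Sc n)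

/-! ### the bilinear identities -/

/-- the arithmetic side of the bilinear identities, `N = n` or `N = 2 n` -/
def AA (n N : ℕ) : ℤ := ∑ T ∈ (range N).filter (fun T => 17 ∣ T), loc n (4 * (N - T) * T)

/-- BIL: the bilinear identities -/
def S_BIL1 : Prop := ∀ n : ℕ, Cm n → 48 * AA n n = rr n ^ 2 + 3 * cc n ^ 2 - 8 * rr n

def S_BIL2 : Prop := ∀ n : ℕ, Cm n →
  48 * AA n (2 * n) = rr (4 * n) * rr n + 3 * (cc (4 * n) * cc n) - 8 * rr n

/-- CNF: the class number formula -/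
def S_CNF : Prop := ∀ n : ℕ, Cm n →
  6 * ∑ u ∈ (range n).filter (fun u => 2 * u < n), jacobiSym u n = (2 - ep2 n) * rr n

/-! ### the symbol -/

/-- the forms `A x² + B x y + C y²` of discriminant `4` entering the symbol -/
def Fm (q : ℤ × ℤ × ℤ) : Prop := q.2.1 ^ 2 - 4 * q.1 * q.2.2 = 4 ∧ (17 : ℤ) ∣ q.1 ∧
  (q.2.1 % 34 = 2 ∨ q.2.1 % 34 = 32)

/-- the weight of a form: a sign for the orientation times `-1` for the imprimitive forms -/
def cQ (q : ℤ × ℤ × ℤ) : ℤ := (if q.2.1 % 34 = 2 then 1 else -1) *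
  (if (2 : ℤ) ∣ q.1 ∧ (2 : ℤ) ∣ q.2.2 then -1 else 1)

open Classical in
/-- the number of forms changing sign between `∞` and `x / M` -/
def Fp (x M : ℤ) : ℤ := ∑ᶠ q : ℤ × ℤ × ℤ,
  if Fm q ∧ 0 < q.1 ∧ q.1 * x ^ 2 + q.2.1 * x * M + q.2.2 * M ^ 2 < 0 then cQ q else 0

/-- the correction at the cusps: the sign of the symmetric residue of `x` modulo `M` -/
def sg (x M : ℤ) : ℤ := if x % M = 0 ∨ 2 * (x % M) = M then 0 else if 2 * (x % M) < M then 1 else -1

/-- twice the symbol of a matrix `(a, b; 17 c, d)`, `0 < d`: it depends only on `b`, `c`, `d` -/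
def Gs (b c d : ℤ) : ℤ := 2 * Fp b d + sg b d + sg c d

/-- SYM: the symbol is a homomorphism on `Γ₀(17)` (with `0 < d` after changing the sign) -/
def S_SYM : Prop := ∀ a b c d a' b' c' d' : ℤ, a * d - 17 * (b * c) = 1 →
  a' * d' - 17 * (b' * c') = 1 → 0 < d → 0 < d' → 0 < 17 * c * b' + d * d' →
  Gs (a * b' + b * d') (c * a' + d * c') (17 * c * b' + d * d') = Gs b c d + Gs b' c' d'

/-- the divisor sum of the indefinite side -/
def WW (n S T : ℕ) : ℤ :=
  ∑ a ∈ S.divisors, ∑ a' ∈ T.divisors.filter (17 ∣ ·),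
    ∏ p ∈ n.primeFactors, psp p a a' (S / a) (T / a')

/-- the sum of the divisor sums -/
def WT (n N : ℕ) : ℤ := ∑ T ∈ (range N).filter (fun T => 17 ∣ T), WW n (N - T) T

/-- the sum over the cusps for `a Y + a' X = N` -/
def WU (n N : ℕ) : ℤ := ∑ T ∈ (range N).filter (fun T => 17 ∣ T),
  ∑ a ∈ (N - T).divisors, ∑ a' ∈ T.divisors.filter (17 ∣ ·),
    ∑ u ∈ (un n).filter (fun u : ℕ => (n : ℤ) ∣ (a : ℤ) * (u : ℤ) + ((T / a' : ℕ) : ℤ) ∧
      (n : ℤ) ∣ (a' : ℤ) * (u : ℤ) - (((N - T) / a : ℕ) : ℤ)), jacobiSym u n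

/-- C1A: the forms and the cusps as factorizations -/
def S_C1A : Prop := ∀ n : ℕ, Cm n →
  ∑ u ∈ un n, jacobiSym u n * Fp u n = 2 * (WU n (2 * n) - 3 * WU n n)

/-- C2: evaluation of the divisor sums, determinant `n` -/
def S_C2A : Prop := ∀ n : ℕ, Cm n → ∀ T : ℕ, 0 < T → T < n → 17 ∣ T →
  WW n (n - T) T = - loc n (4 * (n - T) * T)

/-- C2: evaluation of the divisor sums, determinant `2 n` -/
def S_C2B : Prop := ∀ n : ℕ, Cm n → ∀ T : ℕ, 0 < T → T < 2 * n → 17 ∣ T →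
  WW n (2 * n - T) T = - (loc n (4 * (2 * n - T) * T) +
    if 2 ∣ T then ep2 n * loc n ((2 * n - T) * T) else 0)

/-- DIAG: the character sum of `Fp` (with the correction at the cusps) is a square -/
def S_DIAG : Prop := ∀ n : ℕ, Cm n →
  2 * ∑ u ∈ un n, jacobiSym u n * Fp u n +
    4 * ∑ u ∈ (range n).filter (fun u => 2 * u < n), jacobiSym u n = cc n ^ 2

end

end Pool.Agent.N972.P17
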