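import Mathlib
import Pool.Agent.N969.P15.Defs2
import Pool.Agent.N972.P17.Defs

/-!
# Project P17: statements for the even discriminants `D = -n`, `n = 4 m`, prime to `17`,
# and the uniform criterion (symmetric Monsky matrix)
-/

set_option autoImplicit false

namespace Pool.Agent.N972.P17

open Finset
open Pool.Agent.Z700 (hh fac)
open Pool.Agent.N969.P15 (V3 tw ep2 Qc Qe psp un Ev tb c2 chE psp2)

noncomputable section

/-- the class of the main theorem, even discriminants -/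
def Cme (n : ℕ) : Prop := Ev n ∧ jacobiSym n 17 = -1

/-- `4 M` is a positive fundamental discriminant in which `17` splits -/
def Cpe (M : ℕ) : Prop := Squarefree M ∧ (M % 4 = 2 ∨ M % 4 = 3) ∧ jacobiSym M 17 = 1

/-- the local densities for two even norms -/
def locE (n1 : ℕ) (b : ℤ) (D : ℕ) : ℤ :=
  if Odd (D.factorization 17) then
    tb b * ∏ l ∈ (D.primeFactors.erase 2).erase 17, fac n1 D l
  else 0

/-- PCE: the weighted number of pairs of vectors of even norms with given Gram matrix (`n2` is any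
multiple of `4`) -/
def S_PCE : Prop := ∀ (n1 n2 : ℕ) (b : ℤ) (D : ℕ), Ev n1 → jacobiSym n1 17 = -1 → 4 ∣ n2 →
  0 < D → (D : ℤ) = n1 * n2 - b ^ 2 → (3 * cp1 n1 b n2 + cp2 n1 b n2 : ℤ) = 6 * locE n1 b D

/-- HE2E: the Hecke relations at `2`, ramified case -/
def S_HE2E : Prop := ∀ m : ℕ, (m % 4 = 1 ∨ m % 4 = 2) → ¬ 17 ∣ m →
  rr (16 * m) = 3 * rr (4 * m) ∧ cc (16 * m) = - cc (4 * m)

/-- HE3E: the Hecke relations at `3`, even norms -/
def S_HE3E : Prop := ∀ m : ℕ, ¬ 17 ∣ m → ¬ 3 ∣ m →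
  rr (9 * (4 * m)) = (4 - jacobiSym (-(m : ℤ)) 3) * rr (4 * m) ∧
    cc (9 * (4 * m)) = - jacobiSym (-(m : ℤ)) 3 * cc (4 * m)

/-- U1E: the sum over the factorizations `4 M = d * (4 M / d)`, `d` odd -/
def S_U1E : Prop := ∀ M : ℕ, Cpe M →
  (2 : ℤ) ^ (4 * M).primeFactors.card ∣
    ∑ d ∈ M.divisors.filter (fun d => d % 4 = 3), SS (d : ℕ) (4 * (M / d) : ℕ)

/-- U3E: the sum over the factorizations with the common factor `3` -/
def S_U3E : Prop := ∀ M : ℕ, Cpe M → ¬ 3 ∣ M →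
  (2 : ℤ) ^ ((4 * M).primeFactors.card + 1) ∣
    ∑ d ∈ M.divisors.filter (fun d => d % 4 = 1), SS (3 * d : ℕ) (3 * (4 * (M / d)) : ℕ) -
    ∑ d ∈ M.divisors.filter (fun d => d % 4 = 3), rr (d : ℕ) * rr (4 * (M / d) : ℕ)

/-- RE: the parity of the class number (`Qe n`: no ideal class of order four) -/
def S_RE : Prop := ∀ n : ℕ, Cme n →
  ∃ g : ℤ, rr n = 3 * (2 ^ n.primeFactors.card * g) ∧ (Odd g ↔ Qe n)

/-! ### the uniform criterion -/

/-- the prime discriminants: `-n` is the product of the `star n p` over the primes `p ∣ n` -/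
def star (n p : ℕ) : ℤ :=
  if p = 2 then (if n % 16 = 4 then -4 else if n % 32 = 8 then -8 else 8)
  else if p % 4 = 1 then p else -p

/-- the Kronecker symbol `(star n q / p)` for `p ≠ q`, written additively -/
def ls (n q p : ℕ) : ZMod 2 :=
  if p = 2 then (if star n q % 8 = 1 ∨ star n q % 8 = 7 then 0 else 1)
  else (if jacobiSym (star n q) p = 1 then 0 else 1)

/-- the Rédei matrix (`p`: ramified primes, `q`: genus characters), with row sums zero -/
def LL (n p q : ℕ) : ZMod 2 := if p = q then ∑ r ∈ n.primeFactors.erase p, ls n r p else ls n q p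

/-- the sign of the prime discriminant -/
def al (n q : ℕ) : ZMod 2 := if star n q < 0 then 1 else 0

/-- the Kronecker symbol `(17 / p)` -/
def nu (p : ℕ) : ZMod 2 := if p = 2 then 0 else if jacobiSym 17 p = 1 then 0 else 1

/-- the uniform criterion: the symmetric matrix `[[N, L], [Lᵀ, A]]` over `F_2` is invertible
(`n` odd or even, prime to `17`) -/
def Sx (n : ℕ) : Prop := ∀ x y : ℕ → ZMod 2,
  (∀ p ∈ n.primeFactors, nu p * x p + ∑ q ∈ n.primeFactors, LL n p q * y q = 0) →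
  (∀ q ∈ n.primeFactors, ∑ p ∈ n.primeFactors, LL n p q * x p + al n q * y q = 0) →
  ∀ p ∈ n.primeFactors, x p = 0 ∧ y p = 0

/-- the criteria agree for odd `n` -/
def S_SxSc : Prop := ∀ n : ℕ, Cm n → (Sx n ↔ Sc n)

/-- PARE: the parity of the cusp form coefficient -/
def S_PARE : Prop := ∀ n : ℕ, Cme n →
  ∃ y : ℤ, cc n = 2 ^ n.primeFactors.card * y ∧ (Odd y ↔ Sx n)

/-! ### the bilinear identities and the indefinite side -/

/-- the arithmetic side of the bilinear identities, `N = n` or `N = 2 n` -/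
def AAe (n N : ℕ) : ℤ := ∑ T ∈ (range N).filter (fun T => 17 ∣ T),
  locE n ((T : ℤ) - ((N - T : ℕ) : ℤ)) (4 * (N - T) * T)

def S_BIL1E : Prop := ∀ n : ℕ, Cme n → 48 * AAe n n = rr n ^ 2 + 3 * cc n ^ 2 - 8 * rr n

def S_BIL2E : Prop := ∀ n : ℕ, Cme n →
  48 * AAe n (2 * n) = rr (4 * n) * rr n + 3 * (cc (4 * n) * cc n) - 8 * rr n

/-- CNFE: the class number formula -/
def S_CNFE : Prop := ∀ n : ℕ, Cme n →
  6 * ∑ u ∈ (range n).filter (fun u => 2 * u < n), chE n u = 2 * rr n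

/-- the divisor sum of the indefinite side -/
def WWe (n S T : ℕ) : ℤ :=
  ∑ a ∈ S.divisors, ∑ a' ∈ T.divisors.filter (17 ∣ ·),
    psp2 n a a' (S / a) (T / a') * ∏ p ∈ n.primeFactors.erase 2, psp p a a' (S / a) (T / a')

/-- the sum of the divisor sums -/
def WTe (n N : ℕ) : ℤ := ∑ T ∈ (range N).filter (fun T => 17 ∣ T), WWe n (N - T) T

/-- the sum over the cusps for `a Y + a' X = N` -/
def WUe (n N : ℕ) : ℤ := ∑ T ∈ (range N).filter (fun T => 17 ∣ T),
  ∑ a ∈ (N - T).divisors, ∑ a' ∈ T.divisors.filter (17 ∣ ·),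
    ∑ u ∈ (un n).filter (fun u : ℕ => (n : ℤ) ∣ (a : ℤ) * (u : ℤ) + ((T / a' : ℕ) : ℤ) ∧
      (n : ℤ) ∣ (a' : ℤ) * (u : ℤ) - (((N - T) / a : ℕ) : ℤ)), chE n u

/-- C1AE: the forms and the cusps as factorizations (C1BE is the statement of `N969/P15/Defs2`) -/
def S_C1AE : Prop := ∀ n : ℕ, Cme n →
  ∑ u ∈ un n, chE n u * Fp u n = 2 * (WUe n (2 * n) - 3 * WUe n n)

/-- C2E: evaluation of the divisor sums, determinant `n` or `2 n` -/
def S_C2E : Prop := ∀ n : ℕ, Cme n → ∀ N : ℕ, (N = n ∨ N = 2 * n) →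
  ∀ T : ℕ, 0 < T → T < N → 17 ∣ T →
  WWe n (N - T) T = - locE n ((T : ℤ) - ((N - T : ℕ) : ℤ)) (4 * (N - T) * T)

/-- DIAGE: the character sum of `Fp` (with the correction at the cusps) is a square -/
def S_DIAGE : Prop := ∀ n : ℕ, Cme n →
  2 * ∑ u ∈ un n, chE n u * Fp u n +
    4 * ∑ u ∈ (range n).filter (fun u => 2 * u < n), chE n u = cc n ^ 2

end

end Pool.Agent.N972.P17
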