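import Mathlib
import Pool.Agent.N969.P15.Defs2
import Pool.Agent.N972.P17.Defs
import Pool.Agent.N972.P17.Defs2

/-!
# Project P17: statements for the discriminants `D = -n` divisible by `17`, odd and even
-/

set_option autoImplicit false

namespace Pool.Agent.N972.P17

open Finset
open Pool.Agent.Z700 (hh fac)
open Pool.Agent.N969.P15 (V3 tw ep2 Qc Qe psp un Ev tb c2 chE psp2)

noncomputable section

/-- the ramified class, odd discriminants -/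
def Cr (n : ℕ) : Prop := Squarefree n ∧ n % 4 = 3 ∧ 17 ∣ n

/-- the ramified class, even discriminants -/
def Cre (n : ℕ) : Prop := Ev n ∧ 17 ∣ n

/-- the local densities for `17 ∣ n1` -/
def locR (n1 D : ℕ) : ℤ :=
  if 17 ∣ D ∧ hh n1 D 17 = -1 then
    tw n1 D * ∏ l ∈ (D.primeFactors.erase 2).erase 17, fac n1 D l
  else 0

/-- the local densities for two even norms, `17 ∣ n1` -/
def locRE (n1 : ℕ) (b : ℤ) (D : ℕ) : ℤ :=
  if 17 ∣ D ∧ hh n1 D 17 = -1 then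
    tb b * ∏ l ∈ (D.primeFactors.erase 2).erase 17, fac n1 D l
  else 0

/-- PCR: pair counts for `17 ∣ n1` -/
def S_PCR : Prop := ∀ (n1 n2 : ℕ) (b : ℤ) (D : ℕ), Cr n1 → 0 < D → (D : ℤ) = n1 * n2 - b ^ 2 →
  (3 * cp1 n1 b n2 + cp2 n1 b n2 : ℤ) = 6 * locR n1 D

/-- PCRE: pair counts for `17 ∣ n1`, even norms -/
def S_PCRE : Prop := ∀ (n1 n2 : ℕ) (b : ℤ) (D : ℕ), Cre n1 → 4 ∣ n2 → 0 < D →
  (D : ℤ) = n1 * n2 - b ^ 2 → (3 * cp1 n1 b n2 + cp2 n1 b n2 : ℤ) = 6 * locRE n1 b D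

/-! ### Hecke relations without condition at `17` -/

def S_HE2A : Prop := ∀ n : ℕ, n % 4 = 3 →
  rr (4 * n) = (3 - ep2 n) * rr n ∧ cc (4 * n) = (-1 - ep2 n) * cc n

def S_HE2EA : Prop := ∀ m : ℕ, (m % 4 = 1 ∨ m % 4 = 2) →
  rr (16 * m) = 3 * rr (4 * m) ∧ cc (16 * m) = - cc (4 * m)

def S_HE3A : Prop := ∀ n : ℕ, (n % 4 = 0 ∨ n % 4 = 3) → ¬ 3 ∣ n →
  rr (9 * n) = (4 - jacobiSym (-(n : ℤ)) 3) * rr n ∧ cc (9 * n) = - jacobiSym (-(n : ℤ)) 3 * cc n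

/-! ### divisibility and parity, odd discriminants; `n0 = 1 mod 4` squarefree, prime to `17` -/

def C1 (n0 : ℕ) : Prop := Squarefree n0 ∧ n0 % 4 = 1 ∧ ¬ 17 ∣ n0

def S_U1R : Prop := ∀ n0 : ℕ, C1 n0 →
  (2 : ℤ) ^ (n0.primeFactors.card + 1) ∣
    ∑ d ∈ n0.divisors.filter (fun d => d % 4 = 3), SS (17 * d : ℕ) (n0 / d : ℕ)

def S_U3R : Prop := ∀ n0 : ℕ, C1 n0 → 1 < n0 → ¬ 3 ∣ n0 →
  (2 : ℤ) ^ (n0.primeFactors.card + 1) ∣
    ∑ d ∈ n0.divisors.filter (fun d => d % 4 = 1), SS (51 * d : ℕ) (3 * (n0 / d) : ℕ)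

def S_VR : Prop := ∀ n0 : ℕ, C1 n0 → ¬ 3 ∣ n0 →
  (2 : ℤ) ^ (n0.primeFactors.card + 1) ∣
    ∑ d ∈ n0.divisors.filter (fun d => d % 4 = 3), rr (17 * d : ℕ) * rr (n0 / d : ℕ)

/-! ### divisibility and parity, even discriminants; `4 M` a positive discriminant prime to `17` -/

def C4 (M : ℕ) : Prop := Squarefree M ∧ (M % 4 = 2 ∨ M % 4 = 3) ∧ ¬ 17 ∣ M

def S_U1RE : Prop := ∀ M : ℕ, C4 M →
  (2 : ℤ) ^ (4 * M).primeFactors.card ∣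
    ∑ d ∈ M.divisors.filter (fun d => d % 4 = 3),
      (SS (17 * d : ℕ) (4 * (M / d) : ℕ) + SS (68 * (M / d) : ℕ) (d : ℕ))

def S_U3RE : Prop := ∀ M : ℕ, C4 M → ¬ 3 ∣ M →
  (2 : ℤ) ^ ((4 * M).primeFactors.card + 1) ∣
    ∑ d ∈ M.divisors.filter (fun d => d % 4 = 1),
      (SS (51 * d : ℕ) (12 * (M / d) : ℕ) + SS (204 * (M / d) : ℕ) (3 * d : ℕ)) -
    ∑ d ∈ M.divisors.filter (fun d => d % 4 = 3),
      (rr (17 * d : ℕ) * rr (4 * (M / d) : ℕ) + rr (68 * (M / d) : ℕ) * rr (d : ℕ))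

/-- RR: the parity of the class number -/
def S_RR : Prop := ∀ n : ℕ, Cr n →
  ∃ g : ℤ, rr n = 3 * (2 ^ (n.primeFactors.card - 1) * g) ∧ (Odd g ↔ Qc n)

def S_RRE : Prop := ∀ n : ℕ, Cre n →
  ∃ g : ℤ, rr n = 3 * (2 ^ (n.primeFactors.card - 1) * g) ∧ (Odd g ↔ Qe n)

/-- the criterion in the ramified case: the same symmetric matrix without the row and the column
of the first block which belong to `17` -/
def Sr (n : ℕ) : Prop := ∀ x y : ℕ → ZMod 2, x 17 = 0 →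
  (∀ p ∈ n.primeFactors.erase 17, nu p * x p + ∑ q ∈ n.primeFactors, LL n p q * y q = 0) →
  (∀ q ∈ n.primeFactors, ∑ p ∈ n.primeFactors, LL n p q * x p + al n q * y q = 0) →
  ∀ p ∈ n.primeFactors, x p = 0 ∧ y p = 0

/-- PARR: the parity of the cusp form coefficient -/
def S_PARR : Prop := ∀ n : ℕ, Cr n →
  ∃ y : ℤ, cc n = 2 ^ (n.primeFactors.card - 1) * y ∧ (Odd y ↔ Sr n)

def S_PARRE : Prop := ∀ n : ℕ, Cre n →
  ∃ y : ℤ, cc n = 2 ^ (n.primeFactors.card - 1) * y ∧ (Odd y ↔ Sr n)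

/-! ### the bilinear identities and the indefinite side -/

def AAr (n N : ℕ) : ℤ := ∑ T ∈ (range N).filter (fun T => 17 ∣ T), locR n (4 * (N - T) * T)

def AAre (n N : ℕ) : ℤ := ∑ T ∈ (range N).filter (fun T => 17 ∣ T),
  locRE n ((T : ℤ) - ((N - T : ℕ) : ℤ)) (4 * (N - T) * T)

def S_BIL1R : Prop := ∀ n : ℕ, Cr n → 24 * AAr n n = rr n ^ 2 + 3 * cc n ^ 2 - 8 * rr n

def S_BIL2R : Prop := ∀ n : ℕ, Cr n →
  24 * AAr n (2 * n) = rr (4 * n) * rr n + 3 * (cc (4 * n) * cc n) - 8 * rr n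

def S_BIL1RE : Prop := ∀ n : ℕ, Cre n → 24 * AAre n n = rr n ^ 2 + 3 * cc n ^ 2 - 8 * rr n

def S_BIL2RE : Prop := ∀ n : ℕ, Cre n →
  24 * AAre n (2 * n) = rr (4 * n) * rr n + 3 * (cc (4 * n) * cc n) - 8 * rr n

def S_CNFR : Prop := ∀ n : ℕ, Cr n →
  6 * ∑ u ∈ (range n).filter (fun u => 2 * u < n), jacobiSym u n = 2 * ((2 - ep2 n) * rr n)

def S_CNFRE : Prop := ∀ n : ℕ, Cre n →
  6 * ∑ u ∈ (range n).filter (fun u => 2 * u < n), chE n u = 4 * rr n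

def S_C1AR : Prop := ∀ n : ℕ, Cr n →
  ∑ u ∈ un n, jacobiSym u n * Fp u n = 2 * (WU n (2 * n) - 3 * WU n n)

def S_C1ARE : Prop := ∀ n : ℕ, Cre n →
  ∑ u ∈ un n, chE n u * Fp u n = 2 * (WUe n (2 * n) - 3 * WUe n n)

def S_C2AR : Prop := ∀ n : ℕ, Cr n → ∀ T : ℕ, 0 < T → T < n → 17 ∣ T →
  WW n (n - T) T = - locR n (4 * (n - T) * T)

def S_C2BR : Prop := ∀ n : ℕ, Cr n → ∀ T : ℕ, 0 < T → T < 2 * n → 17 ∣ T →
  WW n (2 * n - T) T = - (locR n (4 * (2 * n - T) * T) +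
    if 2 ∣ T then ep2 n * locR n ((2 * n - T) * T) else 0)

def S_C2RE : Prop := ∀ n : ℕ, Cre n → ∀ N : ℕ, (N = n ∨ N = 2 * n) →
  ∀ T : ℕ, 0 < T → T < N → 17 ∣ T →
  WWe n (N - T) T = - locRE n ((T : ℤ) - ((N - T : ℕ) : ℤ)) (4 * (N - T) * T)

/-- twice the symbol at a cusp `a / (17 c)` equivalent to `∞` (`(a, b; 17 c, d)` in `Γ₀(17)`) -/
def Gi (a c d : ℤ) : ℤ := 2 * Fp a (17 * c) + sg a (17 * c) + sg d (17 * c)

/-- SYMR: the symbol at `∞` and at `0` agree on `Γ₀(17)` -/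
def S_SYMR : Prop := ∀ a b c d : ℤ, a * d - 17 * (b * c) = 1 → 0 < c → 0 < d →
  Gi a c d = Gs b c d

def S_DIAGR : Prop := ∀ n : ℕ, Cr n →
  2 * ∑ u ∈ un n, jacobiSym u n * Fp u n +
    4 * ∑ u ∈ (range n).filter (fun u => 2 * u < n), jacobiSym u n = 2 * cc n ^ 2

def S_DIAGRE : Prop := ∀ n : ℕ, Cre n →
  2 * ∑ u ∈ un n, chE n u * Fp u n +
    4 * ∑ u ∈ (range n).filter (fun u => 2 * u < n), chE n u = 2 * cc n ^ 2

end

end Pool.Agent.N972.P17
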