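import Pool.Agent.N972.P17.HEA
import Pool.Agent.N973.P17.BILR
import Pool.Agent.N816.P17.C1AR
import Pool.Agent.N816.P17.C2B
import Pool.Agent.N402.P15.C1B
import Pool.Agent.N402.P15.C1BE
import Pool.Agent.N609.P17.CnfE
import Pool.Agent.N970.P17.PCR
import Pool.Agent.N970.P17.PCE
import Pool.Agent.N871.P17.UE
import Pool.Agent.N218.P17.UR
import Pool.Agent.N919.P17.RR
import Pool.Agent.N919.P17.RE

/-!
# The unconditional statements of project P17
-/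

set_option autoImplicit false

namespace Pool.Agent.N972.P17

theorem f_PC : S_PC := Pool.Agent.N970.P17.t_PC
theorem f_PCE : S_PCE := Pool.Agent.N970.P17.t_PCE
theorem f_PCR : S_PCR := Pool.Agent.N970.P17.t_PCR
theorem f_PCRE : S_PCRE := Pool.Agent.N970.P17.t_PCRE

theorem f_HE2 : S_HE2 := Pool.Agent.N575.P17.t_HE2
theorem f_HE3 : S_HE3 := Pool.Agent.N575.P17.t_HE3
theorem f_HE2E : S_HE2E := Pool.Agent.N575.P17.t_HE2E
theorem f_HE3E : S_HE3E := Pool.Agent.N575.P17.t_HE3E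

theorem f_CNF : S_CNF := Pool.Agent.N609.P17.t_CNF f_PC
theorem f_CNFE : S_CNFE := Pool.Agent.N609.P17.t_CNFE f_PCE
theorem f_CNFR : S_CNFR := Pool.Agent.N609.P17.t_CNFR f_PCR
theorem f_CNFRE : S_CNFRE := Pool.Agent.N609.P17.t_CNFRE f_PCRE

/-- the diagonal formula, odd discriminants prime to `17` -/
theorem f_DIAG : S_DIAG := Pool.Agent.N973.P17.t_DIAG Pool.Agent.N816.P17.CA.t_C1A
  Pool.Agent.N402.P15.t_C1B Pool.Agent.N816.P17.C2.t_C2A Pool.Agent.N816.P17.C2.t_C2B f_PC f_HE2 f_CNF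

/-- the diagonal formula, even discriminants prime to `17` -/
theorem f_DIAGE : S_DIAGE := Pool.Agent.N973.P17.t_DIAGE Pool.Agent.N816.P17.CA.t_C1AE
  Pool.Agent.N402.P15.t_C1BE Pool.Agent.N816.P17.C2.t_C2E f_PCE f_HE2E f_CNFE

/-- the diagonal formula, odd discriminants divisible by `17` -/
theorem f_DIAGR : S_DIAGR := Pool.Agent.N973.P17.t_DIAGR Pool.Agent.N816.P17.CA.t_C1AR
  Pool.Agent.N402.P15.t_C1B Pool.Agent.N816.P17.C2.t_C2AR Pool.Agent.N816.P17.C2.t_C2BR f_PCR t_HE2A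
  f_CNFR

/-- the diagonal formula, even discriminants divisible by `17` -/
theorem f_DIAGRE : S_DIAGRE := Pool.Agent.N973.P17.t_DIAGRE Pool.Agent.N816.P17.CA.t_C1ARE
  Pool.Agent.N402.P15.t_C1BE Pool.Agent.N816.P17.C2.t_C2RE f_PCRE t_HE2EA f_CNFRE

theorem f_U1 : S_U1 := Pool.Agent.N871.P17.t_U1 f_PC
theorem f_U3 : S_U3 := Pool.Agent.N871.P17.t_U3 f_PC f_HE3
theorem f_U1E : S_U1E := Pool.Agent.N871.Q17.t_U1E f_PC
theorem f_U3E : S_U3E := Pool.Agent.N871.Q17.t_U3E f_PC f_HE3E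

theorem f_R : S_R := Pool.Agent.N919.P17.t_R Pool.Agent.N816.P17.t_TORS
theorem f_RE : S_RE := Pool.Agent.N919.P17.t_RE Pool.Agent.N816.P17.t_TORS
theorem f_RR : S_RR := Pool.Agent.N919.P17.t_RR Pool.Agent.N816.P17.t_TORS
theorem f_RRE : S_RRE := Pool.Agent.N919.P17.t_RRE Pool.Agent.N816.P17.t_TORS

end Pool.Agent.N972.P17
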