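import Pool.Agent.N972.P17.Defs
import Pool.Agent.N972.P17.Defs2
import Pool.Agent.N972.P17.Defs3
import Pool.Agent.N975.S17.Lv
import Pool.Agent.N809.M17.Mod17
import Pool.Agent.N916.TE.Tg

/-!
# The twists of level `17` by negative discriminants: the four classes together
-/

set_option autoImplicit false

namespace Pool.Agent.N972.P17

open Pool.Agent.N969.P15 (Ev)
open Pool.Agent.N916.TE (FD)
open Pool.Agent.Y687 (RankBSD)
open Pool.Agent.N975.S17 (FinPts)

/-- the negative fundamental discriminants `-n` in which `17` does not split -/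
def Fam (n : ℕ) : Prop := FD n ∧ jacobiSym n 17 ≠ 1

/-- the criterion -/
def Crit (n : ℕ) : Prop := (¬ 17 ∣ n → Sx n) ∧ (17 ∣ n → Sr n)

/-- the squarefree integer of the discriminant `-n` -/
def mD (n : ℕ) : ℤ := if n % 2 = 1 then -(n : ℤ) else -((n / 4 : ℕ) : ℤ)

theorem fam_cases {n : ℕ} (h : Fam n) : Cm n ∨ Cme n ∨ Cr n ∨ Cre n := by
  obtain ⟨h1, h2⟩ := h
  by_cases h17 : 17 ∣ n
  · rcases h1 with h1 | h1
    · exact Or.inr (Or.inr (Or.inl ⟨h1.1, h1.2, h17⟩))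
    · exact Or.inr (Or.inr (Or.inr ⟨h1, h17⟩))
  · have h3 : jacobiSym n 17 = -1 := by
      have h4 : ((n : ℤ)).gcd (17 : ℕ) = 1 := by
        have h5 : Nat.Coprime n 17 := ((Nat.Prime.coprime_iff_not_dvd (by norm_num)).2 h17).symm
        rw [Int.gcd_natCast_natCast]; exact h5
      rcases jacobiSym.eq_one_or_neg_one h4 with h5 | h5
      · exact absurd h5 h2
      · exact h5
    rcases h1 with h1 | h1
    · exact Or.inl ⟨h1.1, h1.2, h3⟩
    · exact Or.inr (Or.inl ⟨h1, h3⟩)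

theorem ev_mod {n : ℕ} (h : Ev n) : n % 2 = 0 := by
  obtain ⟨m, rfl, -⟩ := h
  omega

theorem not_dvd_of_jac {n : ℕ} (h : jacobiSym n 17 = -1) : ¬ 17 ∣ n := by
  intro h1
  have h2 : jacobiSym n 17 = 0 := by
    rw [jacobiSym.eq_zero_iff_not_coprime, Int.gcd_natCast_natCast]
    exact fun h3 => (Nat.Prime.coprime_iff_not_dvd (by norm_num)).1 (Nat.Coprime.symm h3) h1
  rw [h2] at h
  norm_num at h

/-- the rank form for the four classes -/
theorem bsd_all (hD : S_DIAG) (hDE : S_DIAGE) (hDR : S_DIAGR) (hDRE : S_DIAGRE)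
    (hP : S_PAR) (hPE : S_PARE) (hPR : S_PARR) (hPRE : S_PARRE) (hS : S_SxSc)
    {n : ℕ} (hn : Fam n) (hC : Crit n) (hfin : FinPts (mD n)) :
    RankBSD (-91 * (mD n) ^ 2) (-330 * (mD n) ^ 3) := by
  have h := Pool.Agent.N809.M17.eigen17
  rcases fam_cases hn with h1 | h1 | h1 | h1
  · have e : mD n = -(n : ℤ) := if_pos (by have := h1.2.1; omega)
    rw [e] at hfin ⊢
    exact Pool.Agent.N975.S17.bsdO h hD hP h1 ((hS n h1).1 (hC.1 (not_dvd_of_jac h1.2.2))) hfin
  · have e : mD n = -((n / 4 : ℕ) : ℤ) := if_neg (by have := ev_mod h1.1; omega)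
    rw [e] at hfin ⊢
    exact Pool.Agent.N975.S17.bsdE h hDE hPE h1 (hC.1 (not_dvd_of_jac h1.2)) hfin
  · have e : mD n = -(n : ℤ) := if_pos (by have := h1.2.1; omega)
    rw [e] at hfin ⊢
    exact Pool.Agent.N975.S17.bsdR h hDR hPR h1 (hC.2 h1.2.2) hfin
  · have e : mD n = -((n / 4 : ℕ) : ℤ) := if_neg (by have := ev_mod h1.1; omega)
    rw [e] at hfin ⊢
    exact Pool.Agent.N975.S17.bsdRE h hDRE hPRE h1 (hC.2 h1.2) hfin

end Pool.Agent.N972.P17
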