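import Pool.Agent.N970.P17.PCR
import Pool.Agent.N218.P17.U

/-!
# PCR in the form without the symbol at 17
-/

set_option autoImplicit false

namespace Pool.Agent.N972.P17

open Finset Matrix
open Pool.Agent.Z700 (hh fac)
open Pool.Agent.N816.P17 (F1 F2)
open Pool.Agent.N970.PC
open Pool.Agent.N970.PCE
open Pool.Agent.N970.P17
open Pool.Agent.N969.P15 (tw tb Ev)

theorem s_PCR' (hT : S_TORS) : Pool.Agent.N218.P17.S_PCR' := by
  intro n1 n2 b D hCr hD hDD
  obtain ⟨hs, h3, h5⟩ := hCr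
  have p17 : Nat.Prime 17 := by norm_num
  have h25 : ¬ 17 * 17 ∣ n1 := fun h => p17.one_lt.ne' (Nat.isUnit_iff.1 (hs 17 h))
  rw [← card_pairs1, ← card_pairs2]
  by_cases h20 : 4 * 17 ∣ D
  · obtain ⟨Q, rfl⟩ := h20
    have hQ : 0 < Q := by omega
    have hDD' : 4 * ((17 : ℕ) : ℤ) * (Q : ℤ) = n1 * n2 - b ^ 2 := by
      rw [← hDD]; push_cast; ring
    have hX := card_XXR p17 (by norm_num) hs h3 h5 hQ hDD'
    have hcnt : 3 * Nat.card (Pairs G1 n1 n2 b) + Nat.card (Pairs G2 n1 n2 b) =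
        6 * (XE 17 n1 b Q).card := by
      rw [t_CNTE LE1 (by norm_num) (by omega) (fun v hv => prim_of_sqfree hs hv) hQ hDD',
        t_CNTE LE2 (by norm_num) (by omega) (fun v hv => prim_of_sqfree hs hv) hQ hDD']
      exact card_framesE n1 b Q hT
    rw [XE_eq_XX p17 (by norm_num) hs (by omega)] at hcnt
    have hcnt' : (3 * Nat.card (Pairs G1 n1 n2 b) + Nat.card (Pairs G2 n1 n2 b) : ℤ) =
        6 * (XX 17 n1 b Q).card := by exact_mod_cast hcnt
    have h5D : 17 ∣ 4 * 17 * Q := ⟨4 * Q, by ring⟩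
    rw [if_pos h5D, hcnt', hX]
  · rw [no_pairs L1 hDD h20, no_pairs L2 hDD h20]
    split_ifs with h
    · have h4D : ¬ 4 ∣ D := by
        intro h4
        exact h20 (Nat.Coprime.mul_dvd_of_dvd_of_dvd (by norm_num : Nat.Coprime 4 17) h4 h)
      have h2 : D.factorization 2 - 1 = 0 := by
        have : ¬ 2 ≤ D.factorization 2 := by
          intro h2
          exact h4D ((Nat.Prime.pow_dvd_iff_le_factorization Nat.prime_two hD.ne').2 h2)
        omega
      unfold tw
      rw [h2]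
      simp
    · simp

theorem t_PCR' : Pool.Agent.N218.P17.S_PCR' := s_PCR' Pool.Agent.N816.P17.t_TORS

end Pool.Agent.N972.P17
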