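import Pool.Agent.N972.P17.Fin
import Pool.Agent.N972.P17.Glue
import Pool.Agent.N972.P17.PCR1
import Pool.Agent.N855.P17.Fin
import Pool.Agent.N816.P17.Crit

/-!
# The parity laws and the rank form for the negative discriminants, unconditional
-/

set_option autoImplicit false

namespace Pool.Agent.N972.P17

open Pool.Agent.N975.S17 (FinPts)
open Pool.Agent.Y687 (RankBSD)

theorem f_SxSc : S_SxSc := Pool.Agent.N816.P17.Crit.t_SxSc

theorem f_PCR' : Pool.Agent.N218.P17.S_PCR' := t_PCR'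

theorem f_U1R : S_U1R := Pool.Agent.N218.P17.t_U1R f_PC
theorem f_U3R : S_U3R := Pool.Agent.N218.P17.t_U3R f_PC
theorem f_VR : S_VR := Pool.Agent.N218.P17.t_VR f_PC t_HE3A
theorem f_U1RE : S_U1RE := Pool.Agent.N218.P17.t_U1RE f_PC f_PCR'
theorem f_U3RE : S_U3RE := Pool.Agent.N218.P17.t_U3RE f_PC f_PCR' t_HE3A

theorem f_PAR : S_PAR := Pool.Agent.N855.P17.t_PAR f_U1 f_U3 f_R

theorem f_PARE : S_PARE := Pool.Agent.N855.P17.t_PARE f_U1 f_U3 f_R f_U1E f_U3E f_RE

theorem f_PARR : S_PARR := Pool.Agent.N855.P17.t_PARR f_U1 f_U3 f_R f_U1R f_U3R f_VR f_RR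

theorem f_PARRE : S_PARRE := Pool.Agent.N855.P17.t_PARRE f_U1 f_U3 f_R f_U1E f_U3E f_RE f_U1R
  f_U3R f_VR f_RR f_U1RE f_U3RE f_RRE

/-- the rank form for all negative discriminants in which `17` does not split and which satisfy the
criterion -/
theorem bsd_neg {n : ℕ} (hn : Fam n) (hC : Crit n) (hfin : FinPts (mD n)) :
    RankBSD (-91 * (mD n) ^ 2) (-330 * (mD n) ^ 3) :=
  bsd_all f_DIAG f_DIAGE f_DIAGR f_DIAGRE f_PAR f_PARE f_PARR f_PARRE f_SxSc hn hC hfin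

end Pool.Agent.N972.P17
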