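import Pool.Agent.N972.P17.Defs3
import Pool.Agent.N575.P17.HEE

/-!
# The Hecke relations at `2` and `3` without condition at `17`
-/

set_option autoImplicit false

namespace Pool.Agent.N972.P17

open Pool.Agent.N575.P17

/-- HE2A -/
theorem t_HE2A : S_HE2A := by
  intro n h4
  have h1 := sum4_1 h4
  have h2 := sum4_2 h4
  unfold rr cc
  constructor
  · linear_combination (-3) * h1 - h2
  · linear_combination (-1) * h1 + h2

/-- HE2EA -/
theorem t_HE2EA : S_HE2EA := by
  intro m h4
  have hn : (4 * (m : ℤ)) % 16 = 4 ∨ (4 * (m : ℤ)) % 16 = 8 := by omega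
  have h1 := sum4e_1 hn
  have h2 := sum4e_2 hn
  have e16 : 4 * (4 * (m : ℤ)) = 16 * (m : ℤ) := by ring
  rw [e16] at h1 h2
  unfold rr cc
  constructor
  · linear_combination (-3) * h1 - h2
  · linear_combination (-1) * h1 + h2

/-- HE3A -/
theorem t_HE3A : S_HE3A := by
  intro n _ h3
  have h1 := sum9_1 h3
  have h2 := sum9_2 h3
  have hJ : jacobiSym (-(n : ℤ)) 3 = if n % 3 = 2 then 1 else -1 := by
    split_ifs with h
    · have h0 : (-(n : ℤ)) % ((3 : ℕ) : ℤ) = 1 := by omega
      rw [jacobiSym.mod_left, h0]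
      norm_num
    · have h0 : (-(n : ℤ)) % ((3 : ℕ) : ℤ) = 2 := by omega
      rw [jacobiSym.mod_left, h0]
      norm_num
  rw [← hJ] at h1 h2
  unfold rr cc
  constructor
  · linear_combination (-3) * h1 - h2
  · linear_combination (-1) * h1 + h2

end Pool.Agent.N972.P17
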